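import Pool.Agent.H91.SV.Targets
import Pool.Agent.H76.PS.PSL

/-!
# MP_c62aed_lc: row CEL, the psd inequality on a cell of tables and points
-/

set_option autoImplicit false

namespace Pool.Agent.H34.SV

open Finset Matrix Pool.Agent.H91.SV
open H43.PS

/-- Cauchy-Schwarz for the average over the shifts. -/
lemma cs_step {Z : Type} [Fintype Z] (Y : Z → ℝ) (X1 c Tt E : ℝ) (hY : ∀ z, 0 ≤ Y z)
    (hX : 0 ≤ X1) (hc : 0 ≤ c) (hT : c * ∑ z, Y z = Tt)
    (hE : X1 * (c * Fintype.card Z) ≤ E) :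
    c * ∑ z, Real.sqrt (Y z * X1) ≤ Real.sqrt (Tt * E) := by
  apply Real.le_sqrt_of_sq_le
  have h1 : (∑ z, Real.sqrt (Y z * X1)) ^ 2 ≤ (Fintype.card Z : ℝ) * ∑ z, Y z * X1 := by
    have h2 := sq_sum_le_card_mul_sum_sq (s := (univ : Finset Z))
      (f := fun z => Real.sqrt (Y z * X1))
    rw [Finset.card_univ] at h2
    refine h2.trans (le_of_eq ?_)
    congr 1
    exact sum_congr rfl fun z _ => Real.sq_sqrt (mul_nonneg (hY z) hX)
  have hS : 0 ≤ ∑ z, Y z := sum_nonneg fun z _ => hY z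
  have hT0 : 0 ≤ Tt := by rw [← hT]; exact mul_nonneg hc hS
  calc (c * ∑ z, Real.sqrt (Y z * X1)) ^ 2 = c ^ 2 * (∑ z, Real.sqrt (Y z * X1)) ^ 2 := by ring
    _ ≤ c ^ 2 * ((Fintype.card Z : ℝ) * ∑ z, Y z * X1) :=
        mul_le_mul_of_nonneg_left h1 (sq_nonneg c)
    _ = (c * ∑ z, Y z) * (X1 * (c * Fintype.card Z)) := by rw [← sum_mul]; ring
    _ = Tt * (X1 * (c * Fintype.card Z)) := by rw [hT]
    _ ≤ Tt * E := mul_le_mul_of_nonneg_left hE hT0

/-- The sum over the shifts and the block values is the sum over the points. -/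
lemma sum_points {Θ : Type} [Fintype Θ] (N q : ℕ) (F : (Fin N → Θ × Fin q) → ℝ) :
    ∑ z0 : Fin N → Θ, ∑ v : Fin N → Fin q, F (fun i => (z0 i, v i)) = ∑ x, F x := by
  rw [← (Equiv.arrowProdEquivProdArrow (Fin N) (fun _ => Θ) (fun _ => Fin q)).symm.sum_comp F,
    Fintype.sum_prod_type]
  rfl

/-- The same with the tables. -/
lemma sum_avg {Θ : Type} [Fintype Θ] [Nonempty Θ] (N q : ℕ) (hq : 0 < q)
    (F : (Fin N → Fin q → Θ) → (Fin N → Θ × Fin q) → ℝ) :
    (Fintype.card ((Fin N → Fin q → Θ) × (Fin N → Fin q)) : ℝ) *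
      ∑ z0 : Fin N → Θ, av (fun ab : (Fin N → Fin q → Θ) × (Fin N → Fin q) =>
        F ab.1 (fun i => (z0 i, ab.2 i))) = ∑ a, ∑ x, F a x := by
  have hne : Nonempty (Fin q) := ⟨⟨0, hq⟩⟩
  have hc : (Fintype.card ((Fin N → Fin q → Θ) × (Fin N → Fin q)) : ℝ) ≠ 0 := by
    have : 0 < Fintype.card ((Fin N → Fin q → Θ) × (Fin N → Fin q)) := Fintype.card_pos
    exact_mod_cast this.ne'
  unfold av
  rw [← mul_sum, ← mul_assoc, mul_inv_cancel₀ hc, one_mul]
  have h1 : ∀ z0 : Fin N → Θ, ∑ ab : (Fin N → Fin q → Θ) × (Fin N → Fin q),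
      F ab.1 (fun i => (z0 i, ab.2 i)) =
      ∑ a, ∑ v : Fin N → Fin q, F a (fun i => (z0 i, v i)) := fun z0 => Fintype.sum_prod_type _
  rw [sum_congr rfl fun z0 _ => h1 z0, sum_comm]
  exact sum_congr rfl fun a _ => sum_points N q (F a)

/-- A sum over two subsets. -/
lemma sum_ite_sum {T P : Type} [Fintype T] [Fintype P] [DecidableEq T] [DecidableEq P]
    (A : Finset T) (X : Finset P) (G : T → P → ℝ) :
    ∑ a, ∑ x, (if a ∈ A then (if x ∈ X then G a x else 0) else 0) =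
      ∑ a ∈ A, ∑ x ∈ X, G a x := by
  have h1 : ∀ a, ∑ x, (if a ∈ A then (if x ∈ X then G a x else 0) else 0) =
      if a ∈ A then ∑ x ∈ X, G a x else 0 := by
    intro a
    by_cases ha : a ∈ A
    · simp only [if_pos ha]
      rw [Finset.sum_ite_mem, univ_inter]
    · simp only [if_neg ha, sum_const_zero]
  rw [sum_congr rfl fun a _ => h1 a, Finset.sum_ite_mem, univ_inter]

theorem pf_CEL (hS : T_SDP) (hN : T_NRM) (hL : T_LSH) (hT : T_TRP) : S_CEL := by
  classical
  intro p q N h _ e σ he1 he2 hσ hq D Mx hD hPD r f g hf hg A X m E hm hfg hE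
  have hΘ : 0 < Fintype.card (ZMod p) := Fintype.card_pos
  have hMx : 0 ≤ Mx := (abs_nonneg _).trans (hD 0)
  obtain ⟨P', S', hP', hS', hPS, htP, htS⟩ := hN (Fin r) {a // a ∈ A} {x // x ∈ X}
    (fun a => f a.1) (fun x => g x.1) m hm (fun a => hf _) (fun x => hg _)
    (fun a b => hfg _ a.2 _ b.2)
  let P2 : (Fin N → Fin q → ZMod p) → Matrix (Fin r) (Fin r) ℝ := fun a =>
    if ha : a ∈ A then P' ⟨a, ha⟩ else 0
  let S2 : (Fin N → ZMod p × Fin q) → Matrix (Fin r) (Fin r) ℝ := fun x =>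
    if hx : x ∈ X then S' ⟨x, hx⟩ else 0
  have hP2 : ∀ a, (P2 a).PosSemidef := by
    intro a
    by_cases ha : a ∈ A
    · simp only [P2, dif_pos ha]; exact hP' _
    · simp only [P2, dif_neg ha]; exact PosSemidef.zero
  have hS2 : ∀ x, (S2 x).PosSemidef := by
    intro x
    by_cases hx : x ∈ X
    · simp only [S2, dif_pos hx]; exact hS' _
    · simp only [S2, dif_neg hx]; exact PosSemidef.zero
  have htS2 : ∀ x, (S2 x).trace ≤ 2 * m := by
    intro x
    by_cases hx : x ∈ X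
    · simp only [S2, dif_pos hx]; exact htS _
    · simp only [S2, dif_neg hx, Matrix.trace_zero]; positivity
  have htr : ∀ a x, (P2 a * S2 x).trace =
      if a ∈ A then (if x ∈ X then (f a * g x).trace else 0) else 0 := by
    intro a x
    by_cases ha : a ∈ A
    · by_cases hx : x ∈ X
      · simp only [P2, S2, dif_pos ha, dif_pos hx, if_pos ha, if_pos hx]
        exact hPS ⟨a, ha⟩ ⟨x, hx⟩
      · simp only [S2, dif_neg hx, if_pos ha, if_neg hx, Matrix.mul_zero, Matrix.trace_zero]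
    · simp only [P2, dif_neg ha, if_neg ha, Matrix.zero_mul, Matrix.trace_zero]
  have hnn : ∀ a x, 0 ≤ (P2 a * S2 x).trace := fun a x =>
    H76.PS.trace_mul_nn _ _ (hP2 a) (hS2 x)
  -- the weights
  have htp : av (fun a => tp e (P2 a)) ≤ share A * (r : ℝ) ^ e := by
    have h1 : ∀ a, tp e (P2 a) ≤ if a ∈ A then (r : ℝ) ^ e else 0 := by
      intro a
      have h2 := (hT (Fin r) e (P2 a) he1 (hP2 a)).2
      by_cases ha : a ∈ A
      · rw [if_pos ha]
        refine h2.trans (Real.rpow_le_rpow (hP2 a).trace_nonneg ?_ (by linarith))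
        simp only [P2, dif_pos ha]
        refine (htP _).trans (le_of_eq ?_)
        rw [Fintype.card_fin]
      · rw [if_neg ha]
        refine h2.trans (le_of_eq ?_)
        simp only [P2, dif_neg ha, Matrix.trace_zero]
        exact Real.zero_rpow (by linarith)
    refine (H76.PS.av_mono _ _ h1).trans (le_of_eq ?_)
    unfold av share
    rw [← Finset.sum_filter, Finset.sum_const, nsmul_eq_mul, Finset.filter_mem_eq_inter,
      Finset.univ_inter]
    field_simp
  have htp0 : 0 ≤ av (fun a => tp e (P2 a)) := H76.PS.av_nn _ fun a => H76.PS.tp_nn e _ (hP2 a)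
  obtain ⟨hX0, hX1⟩ := H76.PS.XX_mono (p : ℝ) q e σ r (2 * m) _ _ N h (by positivity)
    (by positivity) he1 (by linarith) (by positivity) (by positivity) htp0 htp
  set X0 : ℝ := XX (p : ℝ) q e σ r (2 * m) (av (fun a => tp e (P2 a))) N h with hX0def
  set X1 : ℝ := XX (p : ℝ) q e σ r (2 * m) (share A * (r : ℝ) ^ e) N h with hX1def
  have hX1n : 0 ≤ X1 := hX0.trans hX1
  -- the main lemma for every shift
  let Y : (Fin N → ZMod p) → ℝ := fun z0 =>
    av (fun ab : (Fin N → Fin q → ZMod p) × (Fin N → Fin q) =>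
      (P2 ab.1 * S2 (fun i => (z0 i, ab.2 i))).trace)
  let R : (Fin N → ZMod p) → ℝ := fun z0 =>
    av (fun ab : (Fin N → Fin q → ZMod p) × (Fin N → Fin q) =>
      D (fun i => z0 i + ab.1 i (ab.2 i)) * (P2 ab.1 * S2 (fun i => (z0 i, ab.2 i))).trace)
  have hY : ∀ z0, 0 ≤ Y z0 := fun z0 => H76.PS.av_nn _ fun ab => hnn _ _
  have key : ∀ z0, -(Mx * (2 * Real.sqrt (Y z0 * X1) + X1)) ≤ R z0 := by
    intro z0
    have h1 := hS (ZMod p) e σ he1 he2 hσ hΘ N q h hq (Fin r) P2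
      (fun v => S2 (fun i => (z0 i, v i))) (fun z => D (fun i => z0 i + z i)) Mx (2 * m) hP2
      (fun v => hS2 _) (fun v => htS2 _) (fun z => hD _) (hL (ZMod p) N h D z0 hPD)
    rw [ZMod.card, Fintype.card_fin] at h1
    refine le_trans ?_ h1
    apply neg_le_neg
    apply mul_le_mul_of_nonneg_left _ hMx
    have h2 : Real.sqrt (Y z0 * X0) ≤ Real.sqrt (Y z0 * X1) :=
      Real.sqrt_le_sqrt (mul_le_mul_of_nonneg_left hX1 (hY z0))
    show 2 * Real.sqrt (Y z0 * X0) + X0 ≤ 2 * Real.sqrt (Y z0 * X1) + X1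
    linarith
  -- the sum over the shifts
  set c : ℝ := (Fintype.card ((Fin N → Fin q → ZMod p) × (Fin N → Fin q)) : ℝ) with hc
  have hc0 : 0 ≤ c := Nat.cast_nonneg _
  have hcR : c * ∑ z0, R z0 = ∑ a ∈ A, ∑ x ∈ X,
      D (fun i => Pool.Agent.H91.AV.hs p (Fin q) (a i) (x i)) * (f a * g x).trace := by
    have h1 := sum_avg (Θ := ZMod p) N q hq (fun a x =>
      D (fun i => Pool.Agent.H91.AV.hs p (Fin q) (a i) (x i)) * (P2 a * S2 x).trace)
    refine h1.trans ?_
    simp only [htr, mul_ite, mul_zero]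
    rw [sum_ite_sum A X]
  have hcY : c * ∑ z0, Y z0 = ∑ a ∈ A, ∑ x ∈ X, (f a * g x).trace := by
    have h1 := sum_avg (Θ := ZMod p) N q hq (fun a x => (P2 a * S2 x).trace)
    refine h1.trans ?_
    simp only [htr]
    rw [sum_ite_sum A X]
  have hcard : c * (Fintype.card (Fin N → ZMod p) : ℝ) =
      (Fintype.card (Fin N → Fin q → ZMod p) : ℝ) * Fintype.card (Fin N → ZMod p × Fin q) := by
    have h1 : Fintype.card (Fin N → ZMod p × Fin q) =
        Fintype.card (Fin N → ZMod p) * Fintype.card (Fin N → Fin q) := by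
      rw [Fintype.card_congr (Equiv.arrowProdEquivProdArrow (Fin N) (fun _ => ZMod p)
        (fun _ => Fin q)), Fintype.card_prod]
    rw [hc, h1, Fintype.card_prod]
    push_cast
    ring
  have hE' : X1 * (c * Fintype.card (Fin N → ZMod p)) ≤ E := by
    rw [hcard]
    exact hE
  have h3 := cs_step Y X1 c _ E hY hX1n hc0 hcY hE'
  have h4 : c * ∑ z0, -(Mx * (2 * Real.sqrt (Y z0 * X1) + X1)) ≤ c * ∑ z0, R z0 :=
    mul_le_mul_of_nonneg_left (sum_le_sum fun z0 _ => key z0) hc0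
  rw [hcR] at h4
  refine le_trans ?_ h4
  have h5 : c * ∑ z0, -(Mx * (2 * Real.sqrt (Y z0 * X1) + X1)) =
      -(Mx * (2 * (c * ∑ z0, Real.sqrt (Y z0 * X1)) +
        X1 * (c * Fintype.card (Fin N → ZMod p)))) := by
    rw [sum_neg_distrib, ← mul_sum, sum_add_distrib, ← mul_sum, sum_const, card_univ,
      nsmul_eq_mul]
    ring
  rw [h5]
  apply neg_le_neg
  apply mul_le_mul_of_nonneg_left _ hMx
  linarith

end Pool.Agent.H34.SV
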